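import Pool.Agent.Q219.LT.Chg
import Pool.Agent.Results.MP_cfe56d_mp.AllDimensions

/-! The kinetic energy inequality for orthonormal systems in an affine invariant form: the kinetic
energy may be replaced by `d (det T)^(1/d)`, where `T` is the kinetic energy matrix, with the same
constants. -/

set_option autoImplicit false

open MeasureTheory Matrix

namespace Pool.Agent.Results.MP_cfe56d_mp.AffineInvariantForm

open Pool.Agent.Results.MP_cfe56d_mp.AllDimensions Pool.Agent.Q219.LT

/-- The kinetic energy matrix `T_jk = ∑_n Re ∫ conj(∂_j u_n) ∂_k u_n` of functions `u_n` on `ℝ^d`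
with the weak derivatives `g n k = ∂_k u_n`. Its trace is the kinetic energy `∑_n ∫ |∇ u_n|²`. -/
noncomputable def kinMatrix {d N : ℕ} (g : Fin N → Fin d → (Fin d → ℝ) → ℂ) :
    Matrix (Fin d) (Fin d) ℝ :=
  fun j k => ∑ n, ∫ x, ((starRingEnd ℂ) (g n j x) * g n k x).re

/-- The constants `K` admissible in the affine invariant inequality in dimension `d`: for all `N`
and all `L²`-orthonormal `u_1, …, u_N ∈ H¹(ℝ^d; ℂ)` the function `ρ ^ (1 + 2 / d)`,
`ρ = ∑ |u_n|²`, is integrable and `K ∫ ρ ^ (1 + 2 / d) ≤ d (det T) ^ (1 / d)`, where `T` is the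
kinetic energy matrix. Both sides do not change under linear changes of variables of
determinant one. -/
def AffineAdmissible (d : ℕ) (K : ℝ) : Prop :=
  ∀ (N : ℕ) (u : Fin N → (Fin d → ℝ) → ℂ) (g : Fin N → Fin d → (Fin d → ℝ) → ℂ),
    (∀ n, IsSobolev (u n) (g n)) →
    (∀ n m, ∫ x, (starRingEnd ℂ) (u n x) * u m x = if n = m then 1 else 0) →
    Integrable (fun x => (∑ n, ‖u n x‖ ^ 2) ^ (1 + 2 / (d : ℝ))) ∧
    K * ∫ x, (∑ n, ‖u n x‖ ^ 2) ^ (1 + 2 / (d : ℝ)) ≤ d * (kinMatrix g).det ^ (1 / (d : ℝ))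

theorem iff_admissible {d : ℕ} (hd : 1 ≤ d) (K : ℝ) :
    AffineAdmissible d K ↔ AdmissibleSystem d K := by
  have hd0 : 0 < d := hd
  constructor
  · intro h N u g hu ho
    obtain ⟨h1, h2⟩ := h N u g hu ho
    refine ⟨h1, h2.trans ?_⟩
    have h3 := amgm hd0 (kin_psd (g := g) fun n k => (hu n).memLp_deriv k)
    rw [kin_trace] at h3
    exact h3
  · intro h N u g hu ho
    refine ⟨(h N u g hu ho).1, ?_⟩
    refine det_bound hd0 (kin_psd (g := g) fun n k => (hu n).memLp_deriv k) fun L hL => ?_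
    have hu' : ∀ n, IsSobolev (fun x => u n (L *ᵥ x)) (cg L (g n)) := fun n =>
      ⟨memLp_comp hL (hu n).memLp, memLp_cg hL (hu n).memLp_deriv,
        weak_comp hL (hu n).memLp (hu n).memLp_deriv (hu n).weak⟩
    have ho' : ∀ n m, ∫ x, (starRingEnd ℂ) (u n (L *ᵥ x)) * u m (L *ᵥ x)
        = if n = m then 1 else 0 := fun n m => by
      rw [← ho n m]
      exact int_comp hL (fun y => (starRingEnd ℂ) (u n y) * u m y)
    have h1 := (h N (fun n x => u n (L *ᵥ x)) (fun n => cg L (g n)) hu' ho').2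
    rw [kin_cg (fun n k => (hu n).memLp_deriv k) hL] at h1
    have h2 : ∫ x, (∑ n, ‖u n (L *ᵥ x)‖ ^ 2) ^ (1 + 2 / (d : ℝ))
        = ∫ x, (∑ n, ‖u n x‖ ^ 2) ^ (1 + 2 / (d : ℝ)) :=
      int_comp hL (fun y => (∑ n, ‖u n y‖ ^ 2) ^ (1 + 2 / (d : ℝ)))
    rw [h2] at h1
    exact h1

/-- Let `d ≥ 1`. The same constants are admissible in the kinetic energy inequality for orthonormal
systems and in its affine invariant form, in particular both have the same sharp constant; and the
affine invariant form holds with the constant `(3/4) ^ (1/d) K_d^cl`. -/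
theorem result (d : ℕ) (hd : 1 ≤ d) :
    (∀ K : ℝ, AffineAdmissible d K ↔ AdmissibleSystem d K) ∧
    AffineAdmissible d ((3 / 4) ^ (1 / (d : ℝ)) * Kcl d) :=
  ⟨iff_admissible hd, (iff_admissible hd _).2 (AllDimensions.result.1 d hd)⟩

end Pool.Agent.Results.MP_cfe56d_mp.AffineInvariantForm
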