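import Pool.Agent.Q155.LT.Over

set_option autoImplicit false

open MeasureTheory
open scoped Matrix

namespace Pool.Agent.Results.MP_cfe56d_mp.DensitySymmetries

/-- The partial derivative `∂_k φ` of a function on `ℝ^d`. -/
noncomputable def pder {d : ℕ} (k : Fin d) (φ : (Fin d → ℝ) → ℝ) (x : Fin d → ℝ) : ℝ :=
  fderiv ℝ φ x (Pi.single k 1)

/-- `u` belongs to the Sobolev space `H¹(ℝ^d; ℂ)` and has the weak partial derivatives `g k`: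
`u` and all `g k` are in `L²(ℝ^d)`, and `∫ u ∂_k φ = - ∫ g_k φ` for every real test function
`φ ∈ C_c^∞(ℝ^d)`. -/
structure IsSobolev {d : ℕ} (u : (Fin d → ℝ) → ℂ) (g : Fin d → (Fin d → ℝ) → ℂ) : Prop where
  memLp : MemLp u 2 volume
  memLp_deriv : ∀ k, MemLp (g k) 2 volume
  weak : ∀ k (φ : (Fin d → ℝ) → ℝ), ContDiff ℝ (⊤ : ℕ∞) φ → HasCompactSupport φ →
    ∫ x, u x * (pder k φ x : ℂ) = - ∫ x, g k x * (φ x : ℂ)

/-- `u_1, …, u_N` is `L²`-orthonormal. -/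
def IsOrtho {d N : ℕ} (u : Fin N → (Fin d → ℝ) → ℂ) : Prop :=
  ∀ n m, ∫ x, (starRingEnd ℂ) (u n x) * u m x = if n = m then 1 else 0

/-- The isometry `x ↦ O x + b` of `ℝ^d`. -/
def mov {d : ℕ} (O : Matrix (Fin d) (Fin d) ℝ) (b x : Fin d → ℝ) : Fin d → ℝ :=
  O.mulVec x + b

/-- The density `ρ = ∑ |u_n|²`. -/
noncomputable def dens {d N : ℕ} (u : Fin N → (Fin d → ℝ) → ℂ) (x : Fin d → ℝ) : ℝ :=
  ∑ n, ‖u n x‖ ^ 2

/-- The kinetic energy inequality with the constant `K` for the system `u` with gradients `g`: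
`ρ ^ (1 + 2 / d)` is integrable and `K ∫ ρ ^ (1 + 2 / d) ≤ ∑ ∫ |∇ u_n|²`. -/
def KineticIneq {d N : ℕ} (K : ℝ) (u : Fin N → (Fin d → ℝ) → ℂ)
    (g : Fin N → Fin d → (Fin d → ℝ) → ℂ) : Prop :=
  Integrable (fun x => dens u x ^ (1 + 2 / (d : ℝ))) ∧
    K * ∫ x, dens u x ^ (1 + 2 / (d : ℝ)) ≤ ∑ n, ∑ k, ∫ x, ‖g n k x‖ ^ 2

/-- The semiclassical constant `d / (d + 2) * (2π)² / ω_d ^ (2 / d)`. -/
noncomputable def Kcl (d : ℕ) : ℝ :=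
  d / (d + 2) * ((2 * Real.pi) ^ 2 /
    (volume (Metric.ball (0 : EuclideanSpace ℝ (Fin d)) 1)).toReal ^ ((2 : ℝ) / d))

/-- The matrix of the overlaps `⟨u_n, u_k ∘ τ⟩`, `τ x = O x + b`, has operator norm at most `β`:
`2 Re ∑ conj c_n ⟨u_n, u_k ∘ τ⟩ c'_k ≤ β (|c|² + |c'|²)` for all `c, c'`. -/
def OverlapLe {d N : ℕ} (β : ℝ) (u : Fin N → (Fin d → ℝ) → ℂ) (O : Matrix (Fin d) (Fin d) ℝ)
    (b : Fin d → ℝ) : Prop :=
  ∀ c c' : Fin N → ℂ, 2 * (∑ n, ∑ k, (starRingEnd ℂ) (c n) * c' k *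
      ∫ x, (starRingEnd ℂ) (u n x) * u k (mov O b x)).re ≤ β * ∑ n, (‖c n‖ ^ 2 + ‖c' n‖ ^ 2)

/-- The kinetic energy inequality for systems whose density is (almost) invariant under
isometries which move the functions of the system to (almost) orthogonal positions. -/
theorem result (d : ℕ) (hd : 1 ≤ d) (N : ℕ) (u : Fin N → (Fin d → ℝ) → ℂ)
    (g : Fin N → Fin d → (Fin d → ℝ) → ℂ) (hu : ∀ n, IsSobolev (u n) (g n)) :
    (∀ (M : ℕ) (w : Fin M → ℝ) (O : Fin M → Matrix (Fin d) (Fin d) ℝ) (b : Fin M → Fin d → ℝ)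
      (θ β : ℝ), 0 < θ → 0 < β → (∀ i, 0 ≤ w i) → ∑ i, w i = 1 → (∀ i, (O i)ᵀ * O i = 1) →
      (∀ᵐ x, θ * dens u x ≤ ∑ i, w i * dens u (mov (O i) (b i) x)) →
      (∀ f : (Fin d → ℝ) → ℝ, MemLp f 2 volume →
        ∑ i, w i * ∑ n, ‖∫ x, (f x : ℂ) * u n (mov (O i) (b i) x)‖ ^ 2 ≤ β * ∫ x, f x ^ 2) →
      KineticIneq ((3 * θ ^ (d + 2) / (4 * β ^ 2)) ^ (1 / (d : ℝ)) * Kcl d) u g) ∧
    (∀ (M : ℕ) (O : Fin M → Matrix (Fin d) (Fin d) ℝ) (b : Fin M → Fin d → ℝ) (B : ℝ),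
      1 ≤ M → 0 < B → (∀ i, (O i)ᵀ * O i = 1) →
      (∀ i, ∀ᵐ x, dens u (mov (O i) (b i) x) = dens u x) →
      (∀ c : Fin M → Fin N → ℂ, ∫ x, ‖∑ i, ∑ n, c i n * u n (mov (O i) (b i) x)‖ ^ 2 ≤
        B * ∑ i, ∑ n, ‖c i n‖ ^ 2) →
      KineticIneq ((3 * (M : ℝ) ^ 2 / (4 * B ^ 2)) ^ (1 / (d : ℝ)) * Kcl d) u g) ∧
    (∀ (O : Matrix (Fin d) (Fin d) ℝ) (b : Fin d → ℝ) (β : ℝ), 0 ≤ β → Oᵀ * O = 1 →
      IsOrtho u → (∀ᵐ x, dens u (mov O b x) = dens u x) → OverlapLe β u O b →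
      KineticIneq ((3 / (1 + β) ^ 2) ^ (1 / (d : ℝ)) * Kcl d) u g ∧
        (β ≤ √3 - 1 → KineticIneq (Kcl d) u g)) ∧
    (∀ (M : ℕ) (O : Fin M → Matrix (Fin d) (Fin d) ℝ) (b : Fin M → Fin d → ℝ), 1 ≤ M →
      IsOrtho u → (∀ i, (O i)ᵀ * O i = 1) →
      (∀ i, ∀ᵐ x, dens u (mov (O i) (b i) x) = dens u x) →
      (∀ i j, i ≠ j → ∀ n k, ∫ x, (starRingEnd ℂ) (u n (mov (O i) (b i) x)) *
        u k (mov (O j) (b j) x) = 0) →
      KineticIneq ((3 * (M : ℝ) ^ 2 / 4) ^ (1 / (d : ℝ)) * Kcl d) u g) := by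
  have hS : ∀ n, LTd.WGradC (u n) (g n) := fun n => ⟨(hu n).1, (hu n).2, (hu n).3⟩
  have hL : ∀ n, MemLp (u n) 2 volume := fun n => (hu n).1
  have main2 : ∀ (M : ℕ) (O : Fin M → Matrix (Fin d) (Fin d) ℝ) (b : Fin M → Fin d → ℝ) (B : ℝ),
      1 ≤ M → 0 < B → (∀ i, (O i)ᵀ * O i = 1) →
      (∀ i, ∀ᵐ x, dens u (mov (O i) (b i) x) = dens u x) →
      (∀ c : Fin M → Fin N → ℂ, ∫ x, ‖∑ i, ∑ n, c i n * u n (mov (O i) (b i) x)‖ ^ 2 ≤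
        B * ∑ i, ∑ n, ‖c i n‖ ^ 2) →
      KineticIneq ((3 * (M : ℝ) ^ 2 / (4 * B ^ 2)) ^ (1 / (d : ℝ)) * Kcl d) u g :=
    fun M O b B hM hB h1 hρ hG =>
      Pool.Agent.Q155.LT.sym_main d hd M N hM B hB u g hS O h1 b hρ hG
  refine ⟨fun M w O b θ β hθ hβ hw0 hw1 h1 hρ hf =>
    Pool.Agent.Q155.LT.frame_main d hd θ β hθ hβ M N u g hS w hw0 hw1 O h1 b hρ hf,
    main2, ?_, ?_⟩
  · intro O b β hβ0 h1 ho hρ hov
    have h3 : KineticIneq ((3 / (1 + β) ^ 2) ^ (1 / (d : ℝ)) * Kcl d) u g := by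
      have h4 := main2 2 ![1, O] ![0, b] (1 + β) (by norm_num) (by positivity)
        (Fin.forall_fin_two.mpr ⟨by simp, h1⟩)
        (Fin.forall_fin_two.mpr ⟨Filter.Eventually.of_forall fun x => by simp [mov], hρ⟩) (by
          intro c
          have h5 := Pool.Agent.Q155.LT.two_gram N β u hL ho O h1 b hov (c 0) (c 1)
          have e1 : ∀ x, ∑ i : Fin 2, ∑ n, c i n *
              u n (mov ((![1, O] : Fin 2 → Matrix (Fin d) (Fin d) ℝ) i)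
                ((![0, b] : Fin 2 → Fin d → ℝ) i) x) =
              ∑ n, c 0 n * u n x + ∑ n, c 1 n * u n (O.mulVec x + b) := by
            intro x
            rw [Fin.sum_univ_two]
            simp [mov]
          simp only [e1]
          rw [Fin.sum_univ_two, ← Finset.sum_add_distrib]
          exact h5)
      have e2 : (3 * ((2 : ℕ) : ℝ) ^ 2 / (4 * (1 + β) ^ 2)) = 3 / (1 + β) ^ 2 := by
        push_cast
        field_simp
        norm_num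
      rwa [e2] at h4
    refine ⟨h3, fun hβ1 => ?_⟩
    obtain ⟨h4, h5⟩ := h3
    refine ⟨h4, le_trans ?_ h5⟩
    have hρ0 : 0 ≤ ∫ x, dens u x ^ (1 + 2 / (d : ℝ)) :=
      integral_nonneg fun x => Real.rpow_nonneg (Finset.sum_nonneg fun n _ => sq_nonneg _) _
    have hK : 0 ≤ Kcl d := by unfold Kcl; positivity
    refine mul_le_mul_of_nonneg_right ?_ hρ0
    have e1 : (1:ℝ) ≤ 3 / (1 + β) ^ 2 := by
      rw [le_div_iff₀ (by positivity), one_mul]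
      have h5 : 1 + β ≤ √3 := by linarith
      calc (1 + β) ^ 2 ≤ (√3) ^ 2 := pow_le_pow_left₀ (by positivity) h5 2
        _ = 3 := Real.sq_sqrt (by norm_num)
    have e2 : (1:ℝ) ≤ (3 / (1 + β) ^ 2) ^ (1 / (d:ℝ)) := Real.one_le_rpow e1 (by positivity)
    exact le_mul_of_one_le_left hK e2
  · intro M O b hM ho h1 hρ hov
    have h3 := main2 M O b 1 hM one_pos h1 hρ
      (Pool.Agent.Q155.LT.orth_gram M N u hL ho O h1 b hov)
    rwa [one_pow, mul_one] at h3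

end Pool.Agent.Results.MP_cfe56d_mp.DensitySymmetries
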