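import Pool.Agent.Q195.LTX

/-!
# MP_cfe56d_mp: the semiclassical inequality for systems with an orthogonal symmetry

For `m ≥ 6` and every `k ≥ 0` the kinetic energy inequality holds with the semiclassical constant
for all orthonormal systems of functions on `ℝ^m × ℝ^k` which are invariant under the orthogonal
group of the first factor. The case `k = 0` is the case of radial functions in dimension `m ≥ 6`.
-/

set_option autoImplicit false

namespace Pool.Agent.Results.MP_cfe56d_mp.OrthogonallyInvariantSystems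

open MeasureTheory

/-- The semiclassical constant `d / (d + 2) * (2 π)² / ω_d ^ (2 / d)`. -/
noncomputable def Kcl (d : ℕ) : ℝ :=
  d / (d + 2) * ((2 * Real.pi) ^ 2 /
    (volume (Metric.ball (0 : EuclideanSpace ℝ (Fin d)) 1)).toReal ^ ((2 : ℝ) / d))

/-- `|∇u|²` at the point `p = (x, y)` of `ℝ^m × ℝ^k`: the sum of the squares of the absolute values
of the `m + k` first partial derivatives. -/
noncomputable def gradSq {m k : ℕ} (u : EuclideanSpace ℝ (Fin m) × (Fin k → ℝ) → ℂ)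
    (p : EuclideanSpace ℝ (Fin m) × (Fin k → ℝ)) : ℝ :=
  (∑ i : Fin m, ‖fderiv ℝ u p (EuclideanSpace.single i 1, 0)‖ ^ 2) +
    ∑ j : Fin k, ‖fderiv ℝ u p (0, Pi.single j 1)‖ ^ 2

/-- Invariance under the orthogonal group of the first factor. -/
def Invariant {m k : ℕ} (u : EuclideanSpace ℝ (Fin m) × (Fin k → ℝ) → ℂ) : Prop :=
  ∀ (A : EuclideanSpace ℝ (Fin m) ≃ₗᵢ[ℝ] EuclideanSpace ℝ (Fin m))
    (x : EuclideanSpace ℝ (Fin m)) (y : Fin k → ℝ), u (A x, y) = u (x, y)

/-- The semiclassical Lieb-Thirring inequality for invariant systems. -/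
theorem result (m k : ℕ) (hm : 6 ≤ m) (N : ℕ)
    (u : Fin N → EuclideanSpace ℝ (Fin m) × (Fin k → ℝ) → ℂ)
    (hu : ∀ n, ContDiff ℝ 1 (u n)) (hc : ∀ n, HasCompactSupport (u n))
    (hinv : ∀ n, Invariant (u n))
    (ho : ∀ n n', ∫ p, (starRingEnd ℂ) (u n p) * u n' p = if n = n' then 1 else 0) :
    Kcl (m + k) * ∫ p, (∑ n, ‖u n p‖ ^ 2) ^ (1 + 2 / ((m + k : ℕ) : ℝ)) ≤
      ∑ n, ∫ p, gradSq (u n) p := by
  obtain ⟨M, rfl⟩ : ∃ M, m = M + 6 := ⟨m - 6, by omega⟩
  have hi : ∀ n, Pool.Agent.Q195.LT.Inv (u n) := by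
    intro n x x' y h
    have h0 := Submodule.reflection_sub h
    have h1 := hinv n ((Submodule.reflection (ℝ ∙ (x - x'))ᗮ)) x y
    rw [h0] at h1
    exact h1.symm
  exact Pool.Agent.Q195.LT.complex_main' u hu hc hi ho

end Pool.Agent.Results.MP_cfe56d_mp.OrthogonallyInvariantSystems
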