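import Pool.Agent.Q232.LT.Gram

set_option autoImplicit false

open MeasureTheory

namespace Pool.Agent.Results.MP_cfe56d_mp.ReflectionAndConjugation

/-- The partial derivative `∂_k φ` of a function on `ℝ^d`. -/
noncomputable def pder {d : ℕ} (k : Fin d) (φ : (Fin d → ℝ) → ℝ) (x : Fin d → ℝ) : ℝ :=
  fderiv ℝ φ x (Pi.single k 1)

/-- `u` belongs to the Sobolev space `H¹(ℝ^d; ℂ)` and has the weak partial derivatives `g k`:
`u` and all `g k` are in `L²(ℝ^d)`, and `∫ u ∂_k φ = - ∫ g_k φ` for every real test function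
`φ ∈ C_c^∞(ℝ^d)`. -/
structure IsSobolev {d : ℕ} (u : (Fin d → ℝ) → ℂ) (g : Fin d → (Fin d → ℝ) → ℂ) : Prop where
  memLp : MemLp u 2 volume
  memLp_deriv : ∀ k, MemLp (g k) 2 volume
  weak : ∀ k (φ : (Fin d → ℝ) → ℝ), ContDiff ℝ (⊤ : ℕ∞) φ → HasCompactSupport φ →
    ∫ x, u x * (pder k φ x : ℂ) = - ∫ x, g k x * (φ x : ℂ)

/-- `u_1, …, u_N ∈ H¹(ℝ^d; ℂ)` is an `L²`-orthonormal system with the weak gradients `g`. -/
def IsSystem (d N : ℕ) (u : Fin N → (Fin d → ℝ) → ℂ) (g : Fin N → Fin d → (Fin d → ℝ) → ℂ) :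
    Prop :=
  (∀ n, IsSobolev (u n) (g n)) ∧
    ∀ n m, ∫ x, (starRingEnd ℂ) (u n x) * u m x = if n = m then 1 else 0

/-- All functions of the system are odd in each of the coordinates `x_j`, `j ∈ J`:
`u_n (x_1, …, -x_j, …, x_d) = - u_n (x)` for almost every `x`. -/
def OddIn {d N : ℕ} (J : Finset (Fin d)) (u : Fin N → (Fin d → ℝ) → ℂ) : Prop :=
  ∀ j ∈ J, ∀ n, ∀ᵐ x, u n (Function.update x j (-(x j))) = - u n x

/-- The overlap of the span of the system with its complex conjugate is at most `β`: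
`Re ∫ (∑ c_n u_n)² ≤ β ∑ |c_n|²` for all complex `c_1, …, c_N`. -/
def ConjOverlap {d N : ℕ} (β : ℝ) (u : Fin N → (Fin d → ℝ) → ℂ) : Prop :=
  ∀ c : Fin N → ℂ, (∫ x, (∑ n, c n * u n x) ^ 2).re ≤ β * ∑ n, ‖c n‖ ^ 2

/-- The kinetic energy inequality with the constant `K` for the system `u` with gradients `g`:
`ρ ^ (1 + 2 / d)`, `ρ = ∑ |u_n|²`, is integrable and `K ∫ ρ ^ (1 + 2 / d) ≤ ∑ ∫ |∇ u_n|²`. -/
def KineticIneq {d N : ℕ} (K : ℝ) (u : Fin N → (Fin d → ℝ) → ℂ)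
    (g : Fin N → Fin d → (Fin d → ℝ) → ℂ) : Prop :=
  Integrable (fun x => (∑ n, ‖u n x‖ ^ 2) ^ (1 + 2 / (d : ℝ))) ∧
    K * ∫ x, (∑ n, ‖u n x‖ ^ 2) ^ (1 + 2 / (d : ℝ)) ≤ ∑ n, ∑ k, ∫ x, ‖g n k x‖ ^ 2

/-- The semiclassical constant `d / (d + 2) * (2π)² / ω_d ^ (2 / d)`. -/
noncomputable def Kcl (d : ℕ) : ℝ :=
  d / (d + 2) * ((2 * Real.pi) ^ 2 /
    (volume (Metric.ball (0 : EuclideanSpace ℝ (Fin d)) 1)).toReal ^ ((2 : ℝ) / d))

/-- The kinetic energy inequality for orthonormal systems which are odd in the coordinates in `J`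
and have overlap at most `β` with their conjugates, with the constant
`(3 * 4 ^ |J| / (1 + β) ^ 2) ^ (1 / d) K_d^cl`. In particular the inequality holds with
`3 ^ (1 / d) K_d^cl` if all functions are odd in one coordinate, and also if `∫ u_n u_m = 0` for
all `n, m`; and it holds with `K_d^cl` if the overlap is at most `√3 - 1`. -/
theorem result (d : ℕ) (hd : 1 ≤ d) (N : ℕ) (u : Fin N → (Fin d → ℝ) → ℂ)
    (g : Fin N → Fin d → (Fin d → ℝ) → ℂ) (hu : IsSystem d N u g) :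
    (∀ (J : Finset (Fin d)) (β : ℝ), 0 ≤ β → OddIn J u → ConjOverlap β u →
      KineticIneq ((3 * 4 ^ J.card / (1 + β) ^ 2) ^ (1 / (d : ℝ)) * Kcl d) u g) ∧
    (∀ J : Finset (Fin d), OddIn J u →
      KineticIneq ((3 * 4 ^ J.card / 4) ^ (1 / (d : ℝ)) * Kcl d) u g) ∧
    ((∃ j : Fin d, OddIn {j} u) → KineticIneq (3 ^ (1 / (d : ℝ)) * Kcl d) u g) ∧
    ((∀ n m, ∫ x, u n x * u m x = 0) → KineticIneq (3 ^ (1 / (d : ℝ)) * Kcl d) u g) ∧
    (∀ β : ℝ, 0 ≤ β → β ≤ √3 - 1 → ConjOverlap β u → KineticIneq (Kcl d) u g) := by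
  obtain ⟨h1, h2⟩ := hu
  have hS : ∀ n, LTd.WGradC (u n) (g n) := fun n => ⟨(h1 n).1, (h1 n).2, (h1 n).3⟩
  have hL : ∀ n, MemLp (u n) 2 volume := fun n => (h1 n).1
  have main : ∀ (J : Finset (Fin d)) (β : ℝ), 0 ≤ β → OddIn J u → ConjOverlap β u →
      KineticIneq ((3 * 4 ^ J.card / (1 + β) ^ 2) ^ (1 / (d : ℝ)) * Kcl d) u g :=
    fun J β hβ0 hJ hβ => Pool.Agent.Q232.LT.complex_odd d hd J β hβ0 N u g hS h2 hJ hβ
  have main1 : ∀ J : Finset (Fin d), OddIn J u →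
      KineticIneq ((3 * 4 ^ J.card / 4) ^ (1 / (d : ℝ)) * Kcl d) u g := by
    intro J hJ
    have h := main J 1 zero_le_one hJ (Pool.Agent.Q232.LT.beta_one u hL h2)
    have e : ((1:ℝ) + 1) ^ 2 = 4 := by norm_num
    rwa [e] at h
  have h0 : OddIn (∅ : Finset (Fin d)) u := by
    intro j hj
    exact absurd hj (Finset.notMem_empty j)
  refine ⟨main, main1, ?_, ?_, ?_⟩
  · rintro ⟨j, hj⟩
    have h := main1 {j} hj
    have e : (3 * 4 ^ ({j} : Finset (Fin d)).card / 4 : ℝ) = 3 := by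
      rw [Finset.card_singleton]; norm_num
    rwa [e] at h
  · intro h
    have h3 := main ∅ 0 le_rfl h0 (Pool.Agent.Q232.LT.beta_zero u hL h)
    have e : (3 * 4 ^ (∅ : Finset (Fin d)).card / (1 + (0:ℝ)) ^ 2 : ℝ) = 3 := by
      rw [Finset.card_empty]; norm_num
    rwa [e] at h3
  · intro β hβ0 hβ1 hβ
    obtain ⟨h3, h4⟩ := main ∅ β hβ0 h0 hβ
    refine ⟨h3, le_trans ?_ h4⟩
    have hρ : 0 ≤ ∫ x, (∑ n, ‖u n x‖ ^ 2) ^ (1 + 2 / (d : ℝ)) :=
      integral_nonneg fun x => Real.rpow_nonneg (Finset.sum_nonneg fun n _ => sq_nonneg _) _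
    have hK : 0 ≤ Kcl d := by unfold Kcl; positivity
    refine mul_le_mul_of_nonneg_right ?_ hρ
    rw [Finset.card_empty, pow_zero, mul_one]
    have e1 : (1:ℝ) ≤ 3 / (1 + β) ^ 2 := by
      rw [le_div_iff₀ (by positivity), one_mul]
      have h5 : 1 + β ≤ √3 := by linarith
      calc (1 + β) ^ 2 ≤ (√3) ^ 2 := pow_le_pow_left₀ (by positivity) h5 2
        _ = 3 := Real.sq_sqrt (by norm_num)
    have e2 : (1:ℝ) ≤ (3 / (1 + β) ^ 2) ^ (1 / (d:ℝ)) := Real.one_le_rpow e1 (by positivity)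
    exact le_mul_of_one_le_left hK e2

end Pool.Agent.Results.MP_cfe56d_mp.ReflectionAndConjugation
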